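import Pool.Agent.H30.Word

set_option autoImplicit false
open Pool.Agent.H30.WordDefs

namespace Pool.Agent.Results.MP_6c7e5c_co.Linear

theorem result : ∃ C : ℕ, 0 < C ∧ ∀ n m : ℕ, 1 ≤ n → 1 ≤ m → m ≤ n.factorial →
    (∃ w : List (Fin n), w.length = h n m ∧ m ≤ numPerms w) ∧ m ≤ (ell m n).choose n ∧
      h n m ≤ C * ell m n := by
  refine ⟨13, by norm_num, fun n m hn h1 hm => ⟨?_, ?_, Pool.Agent.H30.Word.main n m hn h1 hm⟩⟩
  · exact Nat.sInf_mem (s := {L | ∃ w : List (Fin n), w.length = L ∧ m ≤ numPerms w})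
      ⟨_, Pool.Agent.H30.Word.W n n hn, rfl, by rw [Pool.Agent.H30.Word.all]; exact hm⟩
  · refine Nat.sInf_mem (s := {l | m ≤ l.choose n}) ?_
    obtain ⟨k, rfl⟩ : ∃ k, n = k + 1 := ⟨n - 1, by omega⟩
    refine ⟨m + k, ?_⟩
    show m ≤ (m + k).choose (k + 1)
    clear hm hn
    induction k with
    | zero => simp
    | succ k ih =>
      rw [← add_assoc, Nat.choose_succ_succ]
      simp only [Nat.succ_eq_add_one]
      omega

end Pool.Agent.Results.MP_6c7e5c_co.Linear
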